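import Pool.Agent.R133.HadMain

/-!
# An immanant of a Hadamard product of two Jacobi-Trudi matrices that is not `m`-positive

`n = 3`, `η = (1,1,1)`. The ordinary immanant (character `χ^η = sgn`) and the monomial immanant
(`φ_η = sgn`, as `m_{(1,1,1)} = e_3 = s_{(1,1,1)}`) are both the determinant. For the skew shapes
`(17,15,15)/(2,2,0)` and `(17,17,15)/(2,0,0)` the coefficient of the squarefree monomial
`x_0 x_1 ⋯ x_42 y_0 y_1 ⋯ y_46`, that is of `m_{(1^43)}(x) m_{(1^47)}(y)`, is negative.
-/

set_option autoImplicit false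

namespace Pool.Agent.Results.MP_099a0f_co.SignImmanant

open Pool.Agent.R133.Had

/-- The immanant `Imm_f(A) = ∑_w f(w) ∏_i a_{i,w(i)}` of a function `f` on the symmetric group. -/
def Imm {n : ℕ} {R : Type*} [CommRing R] (f : Equiv.Perm (Fin n) → ℤ)
    (A : Matrix (Fin n) (Fin n) R) : R :=
  ∑ w : Equiv.Perm (Fin n), (f w : R) * ∏ i, A i (w i)

/-- The coefficient of `∏_{j < 43} x_j ∏_{j < 47} y_j` in the immanant of
`JT_{(17,15,15)/(2,2,0)}(x) * JT_{(17,17,15)/(2,0,0)}(y)` (entrywise product) for the sign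
character, which is `χ^η = φ_η` for `η = (1,1,1)`, is negative. -/
theorem result :
    MvPowerSeries.coeff (ind S0)
        (Imm (fun w => (Equiv.Perm.sign w : ℤ))
          (Matrix.hadamard (JT (0 : Fin 2) shapeA) (JT (1 : Fin 2) shapeB))) =
      -1611163779164739093850254117352672200 ∧
    MvPowerSeries.coeff (ind S0)
        (Imm (fun w => (Equiv.Perm.sign w : ℤ))
          (Matrix.hadamard (JT (0 : Fin 2) shapeA) (JT (1 : Fin 2) shapeB))) < 0 := by
  have h : (Imm (fun w => (Equiv.Perm.sign w : ℤ))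
          (Matrix.hadamard (JT (0 : Fin 2) shapeA) (JT (1 : Fin 2) shapeB))) =
      Matrix.det (Matrix.hadamard (JT (0 : Fin 2) shapeA) (JT (1 : Fin 2) shapeB)) := by
    rw [← Matrix.det_transpose, Matrix.det_apply']
    rfl
  rw [h, coeff_det]
  norm_num

end Pool.Agent.Results.MP_099a0f_co.SignImmanant
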